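import Mathlib
import Pool.Agent.V11147.Bowtie

/-!
# Orientations avoiding a bowtie with three edges directed toward its centre

For every odd `n ≥ 5` the graph `K_1 ∨ K_{m,m}`, `n = 2m + 1`, has more than `2 ^ ex(n, B)`
orientations without a given orientation of the bowtie in which exactly three of the four edges at
the centre point toward it (or away from it).
-/

set_option autoImplicit false

namespace Pool.Agent.Results.MP_db21b4_co.OddOrders

open Finset

/-- The bowtie with centre `0` and triangles `0 1 2` and `0 3 4`. -/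
def bowtie : SimpleGraph (Fin 5) where
  Adj i j := i ≠ j ∧ (i = 0 ∨ j = 0 ∨ (i = 1 ∧ j = 2) ∨ (i = 2 ∧ j = 1) ∨ (i = 3 ∧ j = 4) ∨
    (i = 4 ∧ j = 3))
  symm := ⟨by decide⟩
  loopless := ⟨by decide⟩

instance : DecidableRel bowtie.Adj := fun i j =>
  inferInstanceAs (Decidable (i ≠ j ∧ (i = 0 ∨ j = 0 ∨ (i = 1 ∧ j = 2) ∨ (i = 2 ∧ j = 1) ∨
    (i = 3 ∧ j = 4) ∨ (i = 4 ∧ j = 3))))

/-- `o` is an orientation of `G`: `o u v = true` means that the edge `uv` is directed from `u` to
`v`. -/
def IsOrientation {V : Type} (G : SimpleGraph V) (o : V → V → Bool) : Prop :=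
  ∀ u v, (o u v = true → G.Adj u v) ∧ (G.Adj u v → o u v = !(o v u))

/-- The directed graph `o` contains the directed graph `b`. -/
def ContainsDir {V : Type} (o : V → V → Bool) (b : Fin 5 → Fin 5 → Bool) : Prop :=
  ∃ f : Fin 5 → V, Function.Injective f ∧ ∀ i j, b i j = true → o (f i) (f j) = true

/-- The number of orientations of `G` that do not contain `b`. -/
noncomputable def numFree {V : Type} (G : SimpleGraph V) (b : Fin 5 → Fin 5 → Bool) : ℕ :=
  Set.ncard {o : V → V → Bool | IsOrientation G o ∧ ¬ ContainsDir o b}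

/-- The maximum number of `b`-free orientations of a graph with `n` vertices. -/
noncomputable def maxFree (n : ℕ) (b : Fin 5 → Fin 5 → Bool) : ℕ :=
  sSup {k : ℕ | ∃ (V : Type) (_ : Fintype V) (G : SimpleGraph V), Fintype.card V = n ∧
    numFree G b = k}

theorem numFree_le {V : Type} [Fintype V] (G : SimpleGraph V) (b : Fin 5 → Fin 5 → Bool) :
    numFree G b ≤ 2 ^ (Fintype.card V * Fintype.card V) := by
  classical
  unfold numFree
  refine (Set.ncard_le_ncard (Set.subset_univ _) (Set.toFinite _)).trans ?_
  rw [Set.ncard_univ, Nat.card_eq_fintype_card, Fintype.card_fun, Fintype.card_fun,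
    Fintype.card_bool, ← pow_mul]

theorem le_maxFree {V : Type} [Fintype V] (G : SimpleGraph V) (b : Fin 5 → Fin 5 → Bool) :
    numFree G b ≤ maxFree (Fintype.card V) b := by
  refine le_csSup ⟨2 ^ (Fintype.card V * Fintype.card V), ?_⟩ ⟨V, inferInstance, G, rfl, rfl⟩
  rintro _ ⟨W, _, G', hW, rfl⟩
  rw [← hW]
  exact numFree_le G' b

/-- The vertex set of the example: an apex `none` and two sides. -/
abbrev X (m : ℕ) : Type := Option (Fin m ⊕ Fin m)

/-- The adjacency relation of the example. -/
def adj (m : ℕ) : X m → X m → Prop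
  | none, some _ => True
  | some _, none => True
  | some (Sum.inl _), some (Sum.inr _) => True
  | some (Sum.inr _), some (Sum.inl _) => True
  | _, _ => False

/-- The example: an apex joined completely to a complete bipartite graph. -/
def host (m : ℕ) : SimpleGraph (X m) where
  Adj := adj m
  symm := ⟨by
    rintro (_ | x | x) (_ | y | y) h <;> exact h⟩
  loopless := ⟨by
    rintro (_ | x | x) h <;> exact h⟩

/-- The orientation with given data. -/
def ori (m : ℕ) (p : (Fin m → Fin m → Bool) × ((Fin m → Bool) × (Fin m → Bool))) :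
    X m → X m → Bool
  | none, some (Sum.inl i) => !(p.2.1 i)
  | none, some (Sum.inr j) => !(p.2.2 j)
  | some (Sum.inl i), none => p.2.1 i
  | some (Sum.inr j), none => p.2.2 j
  | some (Sum.inl i), some (Sum.inr j) => p.1 i j
  | some (Sum.inr j), some (Sum.inl i) => !(p.1 i j)
  | _, _ => false

theorem ori_injective (m : ℕ) : Function.Injective (ori m) := by
  rintro ⟨β, S, T⟩ ⟨β', S', T'⟩ h
  have h1 : β = β' := by
    funext i j
    exact congrFun (congrFun h (some (Sum.inl i))) (some (Sum.inr j))
  have h2 : S = S' := by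
    funext i
    exact congrFun (congrFun h (some (Sum.inl i))) none
  have h3 : T = T' := by
    funext i
    exact congrFun (congrFun h (some (Sum.inr i))) none
  rw [h1, h2, h3]

theorem ori_isOrientation (m : ℕ) (p : (Fin m → Fin m → Bool) × ((Fin m → Bool) × (Fin m → Bool))) :
    IsOrientation (host m) (ori m p) := by
  rintro (_ | x | x) (_ | y | y) <;>
    refine ⟨?_, ?_⟩ <;> intro h <;> simp_all [ori, host, adj]

/-- The admissible in-neighbourhoods of the apex. -/
def Good (m : ℕ) (q : (Fin m → Bool) × (Fin m → Bool)) : Prop :=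
  (∀ i, q.1 i = false) ∨ (∀ j, q.2 j = false) ∨
    ((∀ i i', q.1 i = true → q.1 i' = true → i = i') ∧
      (∀ j j', q.2 j = true → q.2 j' = true → j = j')) ∨
    ((∀ i, q.1 i = true) ∧ (∀ j, q.2 j = true))

theorem good_ne {m : ℕ} {q : (Fin m → Bool) × (Fin m → Bool)} (hq : Good m q) {a a' c c' : Fin m}
    (ha : a ≠ a') (hc : c ≠ c') :
    (q.1 a).toNat + (q.2 c).toNat + (q.1 a').toNat + (q.2 c').toNat ≠ 3 := by
  rcases hq with h | h | ⟨h1, h2⟩ | ⟨h1, h2⟩
  · rw [h a, h a']
    have e1 := Bool.toNat_le (q.2 c)
    have e2 := Bool.toNat_le (q.2 c')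
    simp only [Bool.toNat_false]
    omega
  · rw [h c, h c']
    have e1 := Bool.toNat_le (q.1 a)
    have e2 := Bool.toNat_le (q.1 a')
    simp only [Bool.toNat_false]
    omega
  · have e1 : (q.1 a).toNat + (q.1 a').toNat ≤ 1 := by
      by_cases k1 : q.1 a = true
      · by_cases k2 : q.1 a' = true
        · exact absurd (h1 a a' k1 k2) ha
        · have := Bool.toNat_le (q.1 a)
          rw [Bool.not_eq_true] at k2
          rw [k2]
          simpa using this
      · have := Bool.toNat_le (q.1 a')
        rw [Bool.not_eq_true] at k1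
        rw [k1]
        simpa using this
    have e2 : (q.2 c).toNat + (q.2 c').toNat ≤ 1 := by
      by_cases k1 : q.2 c = true
      · by_cases k2 : q.2 c' = true
        · exact absurd (h2 c c' k1 k2) hc
        · have := Bool.toNat_le (q.2 c)
          rw [Bool.not_eq_true] at k2
          rw [k2]
          simpa using this
      · have := Bool.toNat_le (q.2 c')
        rw [Bool.not_eq_true] at k1
        rw [k1]
        simpa using this
    omega
  · rw [h1 a, h1 a', h2 c, h2 c']
    simp

/-- The orientations given by admissible data are free. -/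
theorem ori_free (m : ℕ) (p : (Fin m → Fin m → Bool) × ((Fin m → Bool) × (Fin m → Bool)))
    (hp : Good m p.2) (b : Fin 5 → Fin 5 → Bool) (hb : IsOrientation bowtie b)
    (h3 : (univ.filter (fun i => b i 0 = true)).card = 3) : ¬ ContainsDir (ori m p) b := by
  rintro ⟨f, hf, hfb⟩
  have hadj : ∀ i j, bowtie.Adj i j → (host m).Adj (f i) (f j) := by
    intro i j hij
    by_cases h : b i j = true
    · exact ((ori_isOrientation m p) (f i) (f j)).1 (hfb i j h)
    · have h1 := (hb i j).2 hij
      rw [Bool.not_eq_true] at h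
      rw [h] at h1
      have h2 : b j i = true := by
        cases hx : b j i
        · rw [hx] at h1
          simp at h1
        · rfl
      exact (((ori_isOrientation m p) (f j) (f i)).1 (hfb j i h2)).symm
  -- the values of the orientation at the apex
  have hval : ∀ i, bowtie.Adj i 0 → ori m p (f i) (f 0) = b i 0 := by
    intro i hi
    by_cases h : b i 0 = true
    · rw [h]
      exact hfb i 0 h
    · have h1 := (hb i 0).2 hi
      rw [Bool.not_eq_true] at h
      rw [h] at h1
      have h2 : b 0 i = true := by
        cases hx : b 0 i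
        · rw [hx] at h1
          simp at h1
        · rfl
      have h4 := hfb 0 i h2
      have h5 := ((ori_isOrientation m p) (f i) (f 0)).2 (hadj i 0 hi)
      rw [h5, h4, h]
      rfl
  have hcount : (b 1 0).toNat + (b 2 0).toNat + (b 3 0).toNat + (b 4 0).toNat = 3 := by
    rw [card_filter, Fin.sum_univ_five] at h3
    have h00 : b 0 0 = false := by
      cases hx : b 0 0
      · rfl
      · exact absurd ((hb 0 0).1 hx) (by decide)
    have hto : ∀ x : Bool, (if x = true then 1 else 0) = x.toNat := by decide
    rw [hto, hto, hto, hto, hto, h00] at h3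
    simpa using h3
  have a01 := hadj 0 1 (by decide)
  have a02 := hadj 0 2 (by decide)
  have a03 := hadj 0 3 (by decide)
  have a04 := hadj 0 4 (by decide)
  have a12 := hadj 1 2 (by decide)
  have a34 := hadj 3 4 (by decide)
  have v1 := hval 1 (by decide)
  have v2 := hval 2 (by decide)
  have v3 := hval 3 (by decide)
  have v4 := hval 4 (by decide)
  have n13 : f 1 ≠ f 3 := fun h => absurd (hf h) (by decide)
  have n14 : f 1 ≠ f 4 := fun h => absurd (hf h) (by decide)
  have n23 : f 2 ≠ f 3 := fun h => absurd (hf h) (by decide)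
  have n24 : f 2 ≠ f 4 := fun h => absurd (hf h) (by decide)
  rw [← v1, ← v2, ← v3, ← v4] at hcount
  clear v1 v2 v3 v4 hval hadj hfb h3 hb
  revert a01 a02 a03 a04 a12 a34 n13 n14 n23 n24 hcount
  generalize f 0 = y0
  generalize f 1 = y1
  generalize f 2 = y2
  generalize f 3 = y3
  generalize f 4 = y4
  intro hcount a01 a02 a03 a04 a12 a34 n13 n14 n23 n24
  have key : ∀ a a' c c' : Fin m, a ≠ a' → c ≠ c' →
      (p.2.1 a).toNat + (p.2.2 c).toNat + (p.2.1 a').toNat + (p.2.2 c').toNat ≠ 3 :=
    fun a a' c c' ha hc => good_ne hp ha hc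
  rcases y0 with _ | y0 | y0
  · rcases y1 with _ | y1 | y1
    · exact a01
    · rcases y2 with _ | y2 | y2
      · exact a02
      · exact a12
      · rcases y3 with _ | y3 | y3
        · exact a03
        · rcases y4 with _ | y4 | y4
          · exact a04
          · exact a34
          · simp only [ori] at hcount
            refine key y1 y3 y2 y4 (fun h => n13 (by rw [h])) (fun h => n24 (by rw [h])) ?_
            omega
        · rcases y4 with _ | y4 | y4
          · exact a04
          · simp only [ori] at hcount
            refine key y1 y4 y2 y3 (fun h => n14 (by rw [h])) (fun h => n23 (by rw [h])) ?_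
            omega
          · exact a34
    · rcases y2 with _ | y2 | y2
      · exact a02
      · rcases y3 with _ | y3 | y3
        · exact a03
        · rcases y4 with _ | y4 | y4
          · exact a04
          · exact a34
          · simp only [ori] at hcount
            refine key y2 y3 y1 y4 (fun h => n23 (by rw [h])) (fun h => n14 (by rw [h])) ?_
            omega
        · rcases y4 with _ | y4 | y4
          · exact a04
          · simp only [ori] at hcount
            refine key y2 y4 y1 y3 (fun h => n24 (by rw [h])) (fun h => n13 (by rw [h])) ?_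
            omega
          · exact a34
      · exact a12
  · rcases y1 with _ | y1 | y1
    · rcases y3 with _ | y3 | y3
      · exact n13 rfl
      · exact a03
      · rcases y4 with _ | y4 | y4
        · exact n14 rfl
        · exact a04
        · exact a34
    · exact a01
    · rcases y2 with _ | y2 | y2
      · rcases y3 with _ | y3 | y3
        · exact n23 rfl
        · exact a03
        · rcases y4 with _ | y4 | y4
          · exact n24 rfl
          · exact a04
          · exact a34
      · exact a02
      · exact a12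
  · rcases y1 with _ | y1 | y1
    · rcases y3 with _ | y3 | y3
      · exact n13 rfl
      · rcases y4 with _ | y4 | y4
        · exact n14 rfl
        · exact a34
        · exact a04
      · exact a03
    · rcases y2 with _ | y2 | y2
      · rcases y3 with _ | y3 | y3
        · exact n23 rfl
        · rcases y4 with _ | y4 | y4
          · exact n24 rfl
          · exact a34
          · exact a04
        · exact a03
      · exact a12
      · exact a02
    · exact a01

/-- The indicator of a point. -/
def pnt {m : ℕ} (i : Fin m) : Fin m → Bool := fun x => decide (x = i)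

/-- A set of admissible data. -/
def data (m : ℕ) : Finset ((Fin m → Bool) × (Fin m → Bool)) :=
  (({fun _ => false} ×ˢ univ) ∪ ((univ.erase (fun _ => false)) ×ˢ {fun _ => false})) ∪
    ((univ : Finset (Fin m × Fin m)).image (fun x => (pnt x.1, pnt x.2)) ∪
      {(fun _ => true, fun _ => true)})

theorem data_good (m : ℕ) : ∀ q ∈ data m, Good m q := by
  intro q hq
  unfold data at hq
  rw [mem_union, mem_union, mem_union, mem_product, mem_product, mem_image, mem_singleton,
    mem_singleton, mem_singleton] at hq
  rcases hq with (⟨h, -⟩ | ⟨-, h⟩) | (⟨x, -, rfl⟩ | rfl)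
  · left
    intro i
    rw [h]
  · right
    left
    intro i
    rw [h]
  · right
    right
    left
    refine ⟨?_, ?_⟩
    · intro i i' hi hi'
      simp only [pnt, decide_eq_true_eq] at hi hi'
      rw [hi, hi']
    · intro i i' hi hi'
      simp only [pnt, decide_eq_true_eq] at hi hi'
      rw [hi, hi']
  · right
    right
    right
    exact ⟨fun _ => rfl, fun _ => rfl⟩

theorem data_card (m : ℕ) (hm : 2 ≤ m) : (data m).card = 2 ^ (m + 1) + m ^ 2 := by
  have hz : ∀ i : Fin m, (pnt i : Fin m → Bool) ≠ fun _ => false := by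
    intro i h
    have := congrFun h i
    simp [pnt] at this
  have ho : ∀ i : Fin m, (pnt i : Fin m → Bool) ≠ fun _ => true := by
    intro i h
    obtain ⟨j, hj⟩ : ∃ j : Fin m, j ≠ i := by
      by_cases h0 : i = ⟨0, by omega⟩
      · exact ⟨⟨1, by omega⟩, by rw [h0]; simp⟩
      · exact ⟨⟨0, by omega⟩, fun h => h0 h.symm⟩
    have := congrFun h j
    simp [pnt, hj] at this
  have hot : (fun _ : Fin m => true) ≠ fun _ => false := by
    intro h
    have := congrFun h ⟨0, by omega⟩
    simp at this
  have hinj : Function.Injective (pnt : Fin m → Fin m → Bool) := by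
    intro i j h
    have := congrFun h i
    simp only [pnt, decide_true] at this
    have h2 := this.symm
    rwa [decide_eq_true_eq] at h2
  have d1 : Disjoint (({fun _ => false} : Finset (Fin m → Bool)) ×ˢ
      (univ : Finset (Fin m → Bool)))
      ((univ.erase (fun _ => false)) ×ˢ ({fun _ => false} : Finset (Fin m → Bool))) := by
    rw [disjoint_left]
    intro q h1 h2
    rw [mem_product, mem_singleton] at h1
    rw [mem_product, mem_erase] at h2
    exact h2.1.1 h1.1
  have d2 : Disjoint ((univ : Finset (Fin m × Fin m)).image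
      (fun x => ((pnt x.1 : Fin m → Bool), (pnt x.2 : Fin m → Bool))))
      {(fun _ => true, fun _ => true)} := by
    rw [disjoint_left]
    intro q h1 h2
    rw [mem_image] at h1
    obtain ⟨x, -, rfl⟩ := h1
    rw [mem_singleton, Prod.mk.injEq] at h2
    exact ho _ h2.1
  have d3 : Disjoint ((({fun _ => false} : Finset (Fin m → Bool)) ×ˢ
      (univ : Finset (Fin m → Bool))) ∪
      ((univ.erase (fun _ => false)) ×ˢ ({fun _ => false} : Finset (Fin m → Bool))))
      ((univ : Finset (Fin m × Fin m)).image
      (fun x => ((pnt x.1 : Fin m → Bool), (pnt x.2 : Fin m → Bool))) ∪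
      {(fun _ => true, fun _ => true)}) := by
    rw [disjoint_left]
    intro q h1 h2
    rw [mem_union, mem_product, mem_product, mem_singleton, mem_singleton] at h1
    rw [mem_union, mem_image, mem_singleton] at h2
    rcases h2 with ⟨x, -, rfl⟩ | rfl
    · rcases h1 with ⟨h1, -⟩ | ⟨-, h1⟩
      · exact hz _ h1
      · exact hz _ h1
    · rcases h1 with ⟨h1, -⟩ | ⟨-, h1⟩
      · exact hot h1
      · exact hot h1
  unfold data
  rw [card_union_of_disjoint d3, card_union_of_disjoint d1, card_union_of_disjoint d2,
    card_product, card_product, card_singleton, card_erase_of_mem (mem_univ _),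
    card_image_of_injective, card_singleton, card_univ, card_univ, Fintype.card_fun,
    Fintype.card_bool, Fintype.card_prod, Fintype.card_fin]
  · have h1 : 1 ≤ 2 ^ m := Nat.one_le_two_pow
    have h2 : 2 ^ (m + 1) = 2 * 2 ^ m := by ring
    have h3 : m ^ 2 = m * m := by ring
    rw [h2, h3]
    omega
  · intro x y h
    simp only [Prod.mk.injEq] at h
    exact Prod.ext (hinj h.1) (hinj h.2)

theorem numFree_ge (m : ℕ) (hm : 2 ≤ m) (b : Fin 5 → Fin 5 → Bool) (hb : IsOrientation bowtie b)
    (h3 : (univ.filter (fun i => b i 0 = true)).card = 3) :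
    2 ^ (m ^ 2) * (2 ^ (m + 1) + m ^ 2) ≤ numFree (host m) b := by
  classical
  have h1 : ((((univ : Finset (Fin m → Fin m → Bool)) ×ˢ data m).image (ori m) :
      Finset (X m → X m → Bool)) : Set (X m → X m → Bool)) ⊆
      {o : X m → X m → Bool | IsOrientation (host m) o ∧ ¬ ContainsDir o b} := by
    intro o ho
    rw [coe_image, Set.mem_image] at ho
    obtain ⟨p, hp, rfl⟩ := ho
    rw [mem_coe, mem_product] at hp
    exact ⟨ori_isOrientation m p, ori_free m p (data_good m _ hp.2) b hb h3⟩
  unfold numFree
  refine le_trans (le_of_eq ?_) (Set.ncard_le_ncard h1 (Set.toFinite _))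
  rw [Set.ncard_coe_finset, card_image_of_injective _ (ori_injective m), card_product,
    data_card m hm, card_univ, Fintype.card_fun, Fintype.card_fun, Fintype.card_bool,
    Fintype.card_fin, ← pow_mul, pow_two]

theorem numFree_rev {V : Type} (G : SimpleGraph V) (b : Fin 5 → Fin 5 → Bool) :
    numFree G (fun i j => b j i) = numFree G b := by
  unfold numFree
  have hflip : Function.Injective (fun (o : V → V → Bool) (u v : V) => o v u) := by
    intro o o' h
    funext u v
    exact congrFun (congrFun h v) u
  have himg : (fun (o : V → V → Bool) (u v : V) => o v u) ''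
      {o | IsOrientation G o ∧ ¬ ContainsDir o b} =
      {o | IsOrientation G o ∧ ¬ ContainsDir o (fun i j => b j i)} := by
    have hori : ∀ o : V → V → Bool, IsOrientation G o → IsOrientation G (fun u v => o v u) := by
      intro o ho u v
      refine ⟨fun h => ((ho v u).1 h).symm, fun h => ?_⟩
      exact (ho v u).2 h.symm
    ext o
    constructor
    · rintro ⟨o', ⟨h1, h2⟩, rfl⟩
      refine ⟨hori o' h1, ?_⟩
      rintro ⟨f, hf, hfb⟩
      exact h2 ⟨f, hf, fun i j hij => hfb j i hij⟩
    · rintro ⟨h1, h2⟩
      refine ⟨fun u v => o v u, ⟨hori o h1, ?_⟩, rfl⟩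
      rintro ⟨f, hf, hfb⟩
      exact h2 ⟨f, hf, fun i j hij => hfb j i hij⟩
  rw [← himg, Set.ncard_image_of_injective _ hflip]

theorem maxFree_ge (m : ℕ) (hm : 2 ≤ m) (b : Fin 5 → Fin 5 → Bool) (hb : IsOrientation bowtie b)
    (h3 : (univ.filter (fun i => b i 0 = true)).card = 3 ∨
      (univ.filter (fun i => b 0 i = true)).card = 3) :
    2 ^ (m ^ 2) * (2 ^ (m + 1) + m ^ 2) ≤ maxFree (2 * m + 1) b := by
  have hcard : Fintype.card (X m) = 2 * m + 1 := by
    rw [Fintype.card_option, Fintype.card_sum, Fintype.card_fin]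
    ring
  rw [← hcard]
  refine le_trans ?_ (le_maxFree (host m) b)
  rcases h3 with h3 | h3
  · exact numFree_ge m hm b hb h3
  · rw [← numFree_rev]
    refine numFree_ge m hm _ ?_ h3
    intro u v
    exact ⟨fun h => ((hb v u).1 h).symm, fun h => (hb v u).2 h.symm⟩

theorem ex_le (m : ℕ) (hm : 2 ≤ m) :
    SimpleGraph.extremalNumber (2 * m + 1) bowtie ≤ m ^ 2 + m + 1 := by
  classical
  have h := (SimpleGraph.extremalNumber_le_iff (V := Fin (2 * m + 1)) bowtie (m ^ 2 + m + 1)).2 ?_
  · rwa [Fintype.card_fin] at h
  intro G _ hfree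
  have hF : Pool.Agent.V11147.Bow.Free G (univ : Finset (Fin (2 * m + 1))) := by
    intro c _ u _ v _ u' _ v' _ h1 h2 h3 h4 h5 h6 h7 h8 h9 h10
    apply hfree
    refine ⟨⟨⟨![c, u, v, u', v'], ?_⟩, ?_⟩⟩
    · intro i j hij
      fin_cases i <;> fin_cases j <;>
        first
        | exact h1 | exact h1.symm | exact h2 | exact h2.symm | exact h3 | exact h3.symm
        | exact h4 | exact h4.symm | exact h5 | exact h5.symm | exact h6 | exact h6.symm
        | exact absurd hij (by decide)
    · intro i j hij
      fin_cases i <;> fin_cases j <;>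
        first
        | rfl
        | exact absurd hij h1.ne | exact absurd hij h1.ne' | exact absurd hij h2.ne
        | exact absurd hij h2.ne' | exact absurd hij h3.ne | exact absurd hij h3.ne'
        | exact absurd hij h4.ne | exact absurd hij h4.ne' | exact absurd hij h5.ne
        | exact absurd hij h5.ne' | exact absurd hij h6.ne | exact absurd hij h6.ne'
        | exact absurd hij h7 | exact absurd hij h7.symm | exact absurd hij h8
        | exact absurd hij h8.symm | exact absurd hij h9 | exact absurd hij h9.symm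
        | exact absurd hij h10 | exact absurd hij h10.symm
  have h1 := Pool.Agent.V11147.Bow.main G (2 * m + 1) (by omega) univ (by simp) hF
  have h2 : Pool.Agent.V11147.Bow.D G univ = 2 * G.edgeFinset.card := by
    rw [Pool.Agent.V11147.Bow.D_eq_sum, ← SimpleGraph.sum_degrees_eq_twice_card_edges]
    refine sum_congr rfl fun v _ => ?_
    rw [← SimpleGraph.card_neighborFinset_eq_degree]
    congr 1
    ext w
    simp
  have h3 : (2 * m + 1) ^ 2 / 4 = m ^ 2 + m := by
    have : (2 * m + 1) ^ 2 = 4 * (m ^ 2 + m) + 1 := by ring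
    rw [this]
    omega
  rw [h2, h3] at h1
  omega

/-- For all `m ≥ 2`, `n = 2m + 1`, and every orientation `b` of the bowtie with exactly three of the
four edges at the centre directed toward the centre (or away from it), some graph on `n` vertices
has at least `2 ^ (m ^ 2) (2 ^ (m + 1) + m ^ 2)` orientations without `b`, which is more than
`2 ^ ex(n, B)`. -/
theorem result :
    (∀ m : ℕ, 2 ≤ m → ∀ b : Fin 5 → Fin 5 → Bool, IsOrientation bowtie b →
      ((univ.filter (fun i => b i 0 = true)).card = 3 ∨
        (univ.filter (fun i => b 0 i = true)).card = 3) →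
      2 ^ (m ^ 2) * (2 ^ (m + 1) + m ^ 2) ≤ maxFree (2 * m + 1) b ∧
      2 ^ SimpleGraph.extremalNumber (2 * m + 1) bowtie < maxFree (2 * m + 1) b) ∧
    ¬ (∀ b : Fin 5 → Fin 5 → Bool, IsOrientation bowtie b →
      ((univ.filter (fun i => b i 0 = true)).card = 3 ∨
        (univ.filter (fun i => b 0 i = true)).card = 3) →
      ∀ n : ℕ, maxFree n b = 2 ^ SimpleGraph.extremalNumber n bowtie) := by
  have main : ∀ m : ℕ, 2 ≤ m → ∀ b : Fin 5 → Fin 5 → Bool, IsOrientation bowtie b →
      ((univ.filter (fun i => b i 0 = true)).card = 3 ∨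
        (univ.filter (fun i => b 0 i = true)).card = 3) →
      2 ^ (m ^ 2) * (2 ^ (m + 1) + m ^ 2) ≤ maxFree (2 * m + 1) b ∧
      2 ^ SimpleGraph.extremalNumber (2 * m + 1) bowtie < maxFree (2 * m + 1) b := by
    intro m hm b hb h3
    have h1 := maxFree_ge m hm b hb h3
    refine ⟨h1, lt_of_lt_of_le ?_ h1⟩
    have h2 : 2 ^ SimpleGraph.extremalNumber (2 * m + 1) bowtie ≤ 2 ^ (m ^ 2 + m + 1) :=
      Nat.pow_le_pow_right (by norm_num) (ex_le m hm)
    have h4 : 2 ^ (m ^ 2 + m + 1) = 2 ^ (m ^ 2) * 2 ^ (m + 1) := by
      rw [← pow_add]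
      ring_nf
    refine h2.trans_lt ?_
    rw [h4]
    refine Nat.mul_lt_mul_of_pos_left ?_ (by positivity)
    have : 0 < m ^ 2 := by positivity
    omega
  refine ⟨main, ?_⟩
  intro h
  -- a concrete orientation
  have hb : IsOrientation bowtie (fun i j => decide ((j = 0 ∧ (i = 1 ∨ i = 2 ∨ i = 3)) ∨
      (i = 0 ∧ j = 4) ∨ (i = 1 ∧ j = 2) ∨ (i = 3 ∧ j = 4))) := by
    unfold IsOrientation
    decide
  have h3 : (univ.filter (fun i : Fin 5 => (fun i j : Fin 5 =>
      decide ((j = 0 ∧ (i = 1 ∨ i = 2 ∨ i = 3)) ∨
      (i = 0 ∧ j = 4) ∨ (i = 1 ∧ j = 2) ∨ (i = 3 ∧ j = 4))) i 0 = true)).card = 3 := by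
    decide
  have h1 := (main 2 (le_refl _) _ hb (Or.inl h3)).2
  rw [h _ hb (Or.inl h3)] at h1
  exact lt_irrefl _ h1

end Pool.Agent.Results.MP_db21b4_co.OddOrders
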